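import Pool.Agent.Helper87.Irr.GoalsT

/-!
MP_033e98_co, packet S4 (STight).
-/

namespace Irr87.H14

open Irr37

/-- leaves minus vertices -/
def del (f : RF) : ℤ := (f.leaves : ℤ) - f.size

/-- leaves minus vertices of a rooted tree -/
def Dv (l : ℕ) (c : RF) : ℤ := (l : ℤ) - 1 + del c

theorem del_nil : del RF.nil = 0 := by simp [del, RF.leaves, RF.size]

theorem del_cons (l : ℕ) (c s : RF) : del (RF.cons l c s) = Dv l c + del s := by
  simp only [del, Dv, RF.leaves, RF.size]
  push_cast
  ring

theorem le_del {k : ℤ} : ∀ {f : RF}, (∀ l c, RF.Top f l c → k ≤ Dv l c) → k * f.width ≤ del f := by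
  intro f
  induction f with
  | nil => intro _; simp [del_nil, RF.width]
  | cons l c s _ ih =>
    intro h
    have h1 := h l c (RF.Top.here _ _ _)
    have h2 := ih (fun l' c' ht => h l' c' (RF.Top.right _ _ ht))
    rw [del_cons]
    simp only [RF.width]
    push_cast
    nlinarith

theorem exists_top {k : ℤ} {f : RF} (h : del f < k * f.width) : ∃ l c, RF.Top f l c ∧ Dv l c < k := by
  by_contra hcon
  push Not at hcon
  exact absurd (le_del hcon) (not_le.2 h)

theorem top_le_del {f : RF} (h : ∀ l c, RF.Top f l c → 0 ≤ Dv l c) :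
    ∀ l c, RF.Top f l c → Dv l c ≤ del f := by
  induction f with
  | nil => intro l c ht; cases ht
  | cons l c s _ ih =>
    intro l' c' ht
    have h1 := h l c (RF.Top.here _ _ _)
    have h2 : ∀ l' c', RF.Top s l' c' → 0 ≤ Dv l' c' := fun l' c' ht => h l' c' (RF.Top.right _ _ ht)
    have h3 := le_del h2
    rw [del_cons]
    cases ht with
    | here => omega
    | right _ _ ht =>
      have := ih h2 l' c' ht
      omega

theorem occ_size {f : RF} {l : ℕ} {c : RF} (h : RF.Occ f l c) : c.size < f.size := by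
  induction h with
  | here l ch sib => simp only [RF.size]; omega
  | down l sib _ ih => simp only [RF.size]; omega
  | right l ch _ ih => simp only [RF.size]; omega

/-- no vertex of degree two without leaves -/
def UZ (l : ℕ) (f : RF) : Prop := RValid l f ∧ NoZero f ∧ ¬ (l = 0 ∧ f.width = 2)

theorem UZ.eqv {l l' : ℕ} {f f' : RF} (h : Eqv l f l' f') : UZ l f → UZ l' f' := by
  induction h with
  | perm l hp =>
    rintro ⟨h1, h2, h3⟩
    refine ⟨(Eqv.perm l hp).rvalid h1, ?_, ?_⟩
    · intro c hc
      exact h2 c (hp.symm.occ hc)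
    · rw [← hp.width_eq]; exact h3
  | reroot l l' c s =>
    rintro ⟨h1, h2, h3⟩
    refine ⟨(Eqv.reroot l l' c s).rvalid h1, ?_, ?_⟩
    · intro c' hc'
      cases hc' with
      | here =>
        have h4 := h1.2
        have h5 : 1 + s.width ≠ 2 := fun h => h3 ⟨rfl, h⟩
        simp only [RF.width] at h4
        show 2 ≤ s.width
        omega
      | down _ _ h => exact h2 _ (RF.Occ.right _ _ h)
      | right _ _ h => exact h2 _ (RF.Occ.down _ _ h)
    · rintro ⟨rfl, hw⟩
      have := h2 c (RF.Occ.here _ _ _)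
      simp only [RF.width] at hw
      omega
  | trans _ _ ih1 ih2 => exact fun h => ih2 (ih1 h)

/-- the conclusion of `STight` -/
def Concl (l : ℕ) (ch : RF) : Prop :=
  (∃ (l' : ℕ) (g : RF), Eqv l ch l' (RF.cons 1 RF.nil g) ∧ 2 ≤ g.width) ∨
  (∃ (l' lw : ℕ) (y yw g : RF), Eqv l ch l' (RF.cons 1 y (RF.cons lw yw g)) ∧ y.width = 1 ∧
    1 ≤ g.width ∧ yw ≠ RF.nil ∧ (1 ≤ lw ∨ 2 ≤ yw.width))

theorem width_nil_iff {f : RF} : f.width = 0 ↔ f = RF.nil := by
  cases f with
  | nil => simp [RF.width]
  | cons l c s => simp [RF.width]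

theorem descent (l : ℕ) (ch : RF) (hz : UZ l ch) : ∀ (n : ℕ) (ly lw : ℕ) (cy yw : RF), cy.size ≤ n →
    Eqv l ch ly (RF.cons lw yw cy) → yw ≠ RF.nil → (1 ≤ lw ∨ 2 ≤ yw.width) → 2 ≤ cy.width →
    (∀ l' c', RF.Occ cy l' c' → 0 ≤ Dv l' c') → del cy ≤ 1 → Concl l ch := by
  intro n
  induction n with
  | zero =>
    intro ly lw cy yw hs _ _ _ hw _ _
    cases cy with
    | nil => simp [RF.width] at hw
    | cons _ _ _ => simp only [RF.size] at hs; omega
  | succ n ih =>
    intro ly lw cy yw hs heq hyw hlw hw hocc hdel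
    have hlt : del cy < 1 * (cy.width : ℤ) := by omega
    obtain ⟨lz, cz, htop, hD⟩ := exists_top hlt
    have hD0 := hocc lz cz htop.occ
    obtain ⟨rest, hperm⟩ := htop.perm
    have hwr := hperm.width_eq
    simp only [RF.width] at hwr
    have hcz : cz.size < cy.size := occ_size htop.occ
    have hN : Eqv l ch ly (RF.cons lz cz (RF.cons lw yw rest)) :=
      heq.trans (Eqv.perm ly ((RF.Perm.cons lw yw hperm).trans (RF.Perm.swap _ _ _ _ _)))
    have hocc' : ∀ l' c', RF.Occ cz l' c' → 0 ≤ Dv l' c' :=
      fun l' c' h => hocc l' c' (htop.occ.trans h)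
    have hdz := le_del (k := 0) (fun l' c' h => hocc' l' c' (RF.Top.occ h))
    rw [zero_mul] at hdz
    unfold Dv at hD hD0
    have hN2 := hN.trans (Eqv.reroot _ _ _ _)
    by_cases hcz2 : 2 ≤ cz.width
    · exact ih lz ly cz (RF.cons lw yw rest) (by omega) hN2 (by simp)
        (Or.inr (by simp only [RF.width]; omega)) hcz2 hocc' (by omega)
    · by_cases hcz1 : cz.width = 1
      · -- then `lz = 1`
        have hzz := (UZ.eqv hN hz).2.1
        have hlz : lz ≠ 0 := by
          rintro rfl
          have := hzz cz (RF.Occ.here _ _ _)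
          omega
        have hlz1 : lz = 1 := by omega
        subst hlz1
        exact Or.inr ⟨ly, lw, cz, yw, rest, hN, hcz1, by omega, hyw, hlw⟩
      · have hcz0 : cz = RF.nil := width_nil_iff.1 (by omega)
        subst hcz0
        rw [del_nil] at hD hD0
        have hlz1 : lz = 1 := by omega
        subst hlz1
        refine Or.inl ⟨ly, _, hN, ?_⟩
        simp only [RF.width]
        omega

/-- a minimal subtree with `Dv ≤ -1` -/
theorem minimal : ∀ (n : ℕ) (l : ℕ) (c : RF), c.size ≤ n → Dv l c ≤ -1 →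
    ∃ l0 c0, ((l0 = l ∧ c0 = c) ∨ RF.Occ c l0 c0) ∧ Dv l0 c0 ≤ -1 ∧
      ∀ l' c', RF.Occ c0 l' c' → 0 ≤ Dv l' c' := by
  intro n
  induction n with
  | zero =>
    intro l c hs hD
    refine ⟨l, c, Or.inl ⟨rfl, rfl⟩, hD, ?_⟩
    intro l' c' h
    have := occ_size h
    omega
  | succ n ih =>
    intro l c hs hD
    by_cases hall : ∀ l' c', RF.Occ c l' c' → 0 ≤ Dv l' c'
    · exact ⟨l, c, Or.inl ⟨rfl, rfl⟩, hD, hall⟩
    · push Not at hall
      obtain ⟨l', c', hocc, hD'⟩ := hall
      have := occ_size hocc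
      obtain ⟨l0, c0, h1, h2, h3⟩ := ih l' c' (by omega) (by omega)
      refine ⟨l0, c0, Or.inr ?_, h2, h3⟩
      rcases h1 with ⟨rfl, rfl⟩ | h1
      · exact hocc
      · exact hocc.trans h1

/-- the first step at the minimal subtree: `N` = all neighbours, `c0` = the children -/
theorem start (l : ℕ) (ch : RF) (hz : UZ l ch) (c0 up : RF) (hN : Eqv l ch 0 (app up c0))
    (hw : 3 ≤ up.width + c0.width) (hw0 : 2 ≤ c0.width)
    (hocc : ∀ l' c', RF.Occ c0 l' c' → 0 ≤ Dv l' c') (hdel : del c0 ≤ 0) : Concl l ch := by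
  have htop0 : ∀ l' c', RF.Top c0 l' c' → Dv l' c' = 0 := by
    intro l' c' h
    have h1 := top_le_del (fun l' c' h => hocc l' c' (RF.Top.occ h)) l' c' h
    have h2 := hocc l' c' h.occ
    omega
  -- rearranging: a top tree of `c0` can be moved to the front
  have hmove : ∀ l1 c1, RF.Top c0 l1 c1 → ∃ rest, RF.Perm c0 (RF.cons l1 c1 rest) ∧
      Eqv l ch 0 (RF.cons l1 c1 (app up rest)) := by
    intro l1 c1 h
    obtain ⟨rest, hr⟩ := h.perm
    refine ⟨rest, hr, ?_⟩
    have h1 : ∀ up : RF, RF.Perm (app up c0) (RF.cons l1 c1 (app up rest)) := by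
      intro up
      induction up with
      | nil => exact hr
      | cons a b s _ ih =>
        exact (RF.Perm.cons a b ih).trans (RF.Perm.swap _ _ _ _ _)
    exact hN.trans (Eqv.perm 0 (h1 up))
  by_cases hthin : RF.Top c0 1 RF.nil
  · obtain ⟨rest, hr, he⟩ := hmove 1 RF.nil hthin
    have hwr := hr.width_eq
    simp only [RF.width] at hwr
    refine Or.inl ⟨0, _, he, ?_⟩
    rw [app_width]
    omega
  · by_cases h1 : ∃ c1, RF.Top c0 1 c1 ∧ c1.width = 1
    · obtain ⟨c1, ht, hc1⟩ := h1
      obtain ⟨rest, hr, he⟩ := hmove 1 c1 ht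
      have hwr := hr.width_eq
      simp only [RF.width] at hwr
      -- another child
      cases rest with
      | nil => simp only [RF.width] at hwr; omega
      | cons lw yw rest2 =>
        simp only [RF.width] at hwr
        have htw : RF.Top c0 lw yw := hr.symm.top (RF.Top.right _ _ (RF.Top.here _ _ _))
        have hDw := htop0 lw yw htw
        have hyw : yw ≠ RF.nil := by
          rintro rfl
          unfold Dv at hDw
          rw [del_nil] at hDw
          have : lw = 1 := by omega
          subst this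
          exact hthin htw
        have hN3 : Eqv l ch 0 (RF.cons 1 c1 (RF.cons lw yw (app up rest2))) := by
          have h1 : ∀ up : RF, RF.Perm (app up (RF.cons lw yw rest2))
              (RF.cons lw yw (app up rest2)) := by
            intro up
            induction up with
            | nil => exact RF.Perm.refl _
            | cons a b s _ ih =>
              exact (RF.Perm.cons a b ih).trans (RF.Perm.swap _ _ _ _ _)
          exact he.trans (Eqv.perm 0 (RF.Perm.cons 1 c1 (h1 up)))
        have hzz := (UZ.eqv hN3 hz).2.1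
        refine Or.inr ⟨0, lw, c1, yw, _, hN3, hc1, by rw [app_width]; omega, hyw, ?_⟩
        by_cases hlw : 1 ≤ lw
        · exact Or.inl hlw
        · have : lw = 0 := by omega
          subst this
          exact Or.inr (hzz yw (RF.Occ.right _ _ (RF.Occ.here _ _ _)))
    · push Not at h1
      -- all children are hubs
      obtain ⟨l1, c1, ht⟩ : ∃ l1 c1, RF.Top c0 l1 c1 := by
        cases c0 with
        | nil => simp [RF.width] at hw0
        | cons a b s => exact ⟨a, b, RF.Top.here _ _ _⟩
      obtain ⟨rest, hr, he⟩ := hmove l1 c1 ht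
      have hwr := hr.width_eq
      simp only [RF.width] at hwr
      have hD1 := htop0 l1 c1 ht
      have hocc' : ∀ l' c', RF.Occ c1 l' c' → 0 ≤ Dv l' c' :=
        fun l' c' h => hocc l' c' (ht.occ.trans h)
      have hdz := le_del (k := 0) (fun l' c' h => hocc' l' c' (RF.Top.occ h))
      rw [zero_mul] at hdz
      unfold Dv at hD1
      have hzz := (UZ.eqv he hz).2.1
      have hc1 : 2 ≤ c1.width := by
        by_contra hlt
        have hl1 : l1 ≠ 0 := by
          rintro rfl
          exact hlt (hzz c1 (RF.Occ.here _ _ _))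
        have hl11 : l1 = 1 := by omega
        subst hl11
        rcases Nat.lt_or_ge c1.width 1 with hc | hc
        · have : c1 = RF.nil := width_nil_iff.1 (by omega)
          subst this
          exact hthin ht
        · exact h1 c1 ht (by omega)
      refine descent l ch hz c1.size l1 0 c1 (app up rest) le_rfl (he.trans (Eqv.reroot _ _ _ _))
        ?_ (Or.inr (by rw [app_width]; omega)) hc1 hocc' (by omega)
      intro hnil
      have := width_nil_iff.2 hnil
      rw [app_width] at this
      omega

theorem sTight : STight := by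
  intro l ch hv hnz hroot hsize
  have hz : UZ l ch := ⟨hv, hnz, hroot⟩
  have hD : Dv l ch ≤ -1 := by
    unfold Dv del
    omega
  obtain ⟨l0, c0, h1, h2, h3⟩ := minimal ch.size l ch le_rfl hD
  have hdz := le_del (k := 0) (fun l' c' h => h3 l' c' (RF.Top.occ h))
  rw [zero_mul] at hdz
  unfold Dv at h2
  have hl0 : l0 = 0 := by omega
  rcases h1 with ⟨h4, h5⟩ | h1
  · subst h5
    subst h4
    subst hl0
    have hw := hv.2
    exact start 0 c0 hz c0 RF.nil (Eqv.refl _ _) (by simp only [RF.width]; omega) (by omega) h3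
      (by omega)
  · subst hl0
    have hw0 := hnz c0 h1
    obtain ⟨m, rest, he⟩ := Eqv.of_occ h1 l
    exact start l ch hz c0 (RF.cons m rest RF.nil) he (by simp only [RF.width]; omega) hw0 h3
      (by omega)

end Irr87.H14
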