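import Pool.Agent.Helper87.Irr.GoalsT

/-!
MP_033e98_co, packet T9 (TCupLeg).
-/

namespace Irr87.H14

open Irr37

theorem ChS_lt {p S : ℕ} {Ds : List ℕ} {h : ℕ} (hc : ChS p S Ds h) : ∀ D ∈ Ds, D < p := by
  obtain ⟨D, l, rfl, h1, h2, h3, h4⟩ := hc
  intro D' hD'
  rcases List.mem_cons.1 hD' with rfl | hD'
  · exact h3
  · exact h4.le D' hD'

theorem wts_nodup {p : ℕ} {Ds : List ℕ} (hn : Ds.Nodup) (hl : ∀ D ∈ Ds, D < p) :
    (wts p Ds).Nodup := by
  unfold wts
  rw [Multiset.coe_nodup]
  refine hn.map_on ?_
  intro x hx y hy hxy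
  have := hl x hx
  have := hl y hy
  omega

theorem runs_nil {p : ℕ} {Dss : List (List ℕ)} {hs : List ℕ} (h : Runs p [] Dss hs) :
    Dss = [] ∧ hs = [] := by
  cases Dss with
  | nil =>
    cases hs with
    | nil => exact ⟨rfl, rfl⟩
    | cons _ _ => simp [Runs] at h
  | cons _ _ =>
    cases hs with
    | nil => simp [Runs] at h
    | cons _ _ => simp [Runs] at h

theorem runs_cons {p n S : ℕ} {ns : List (ℕ × ℕ)} {Dss : List (List ℕ)} {hs : List ℕ}
    (h : Runs p ((n, S) :: ns) Dss hs) : ∃ Ds Dss' h' hs', Dss = Ds :: Dss' ∧ hs = h' :: hs' ∧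
      Ds.length = n ∧ ChS p S Ds h' ∧ h' < p ∧ Runs p ns Dss' hs' := by
  cases Dss with
  | nil =>
    cases hs with
    | nil => simp [Runs] at h
    | cons _ _ => simp [Runs] at h
  | cons Ds Dss =>
    cases hs with
    | nil => simp [Runs] at h
    | cons h' hs => exact ⟨Ds, Dss, h', hs, rfl, rfl, h.1, h.2.1, h.2.2.1, h.2.2.2⟩

theorem star_one {p : ℕ} {V : Finset ℕ} {C n S : ℕ} (h : Star p V C [(n, S)]) :
    ∃ (Ds : List ℕ) (h w : ℕ), Ds.length = n ∧ ChS p S Ds h ∧ h < p ∧
      (w ::ₘ wts p Ds).Nodup ∧ (∀ u ∈ w ::ₘ wts p Ds, p < u ∧ u ∉ V) ∧ w + h = C + p := by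
  obtain ⟨Dss, hs, w, hr, hn, hV, hw, hpw, hwV⟩ := h
  obtain ⟨Ds, Dss', h, hs', rfl, rfl, h1, h2, h3, hr'⟩ := runs_cons hr
  obtain ⟨rfl, rfl⟩ := runs_nil hr'
  simp only [List.flatten_cons, List.flatten_nil, List.append_nil] at hn hV
  have hlt := ChS_lt h2
  refine ⟨Ds, h, w, h1, h2, h3, ?_, ?_, ?_⟩
  · rw [Multiset.nodup_cons]
    refine ⟨?_, wts_nodup hn hlt⟩
    intro hm
    obtain ⟨D, hD, e⟩ := mem_wts.1 hm
    exact (hV D hD).2 e
  · intro u hu
    rcases Multiset.mem_cons.1 hu with rfl | hu
    · exact ⟨hpw, hwV⟩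
    · obtain ⟨D, hD, e⟩ := mem_wts.1 hu
      have := hlt D hD
      refine ⟨by omega, ?_⟩
      rw [← e]
      exact (hV D hD).1
  · simpa using hw

theorem star_two {p : ℕ} {V : Finset ℕ} {C n S n' S' : ℕ} (h : Star p V C [(n, S), (n', S')]) :
    ∃ (Ds Ds' : List ℕ) (h h' w : ℕ), Ds.length = n ∧ ChS p S Ds h ∧ h < p ∧
      Ds'.length = n' ∧ ChS p S' Ds' h' ∧ h' < p ∧
      (w ::ₘ (wts p Ds + wts p Ds')).Nodup ∧
      (∀ u ∈ w ::ₘ (wts p Ds + wts p Ds'), p < u ∧ u ∉ V) ∧ w + (h + h') = C + p * 2 := by
  obtain ⟨Dss, hs, w, hr, hn, hV, hw, hpw, hwV⟩ := h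
  obtain ⟨Ds, Dss', h, hs', rfl, rfl, h1, h2, h3, hr'⟩ := runs_cons hr
  obtain ⟨Ds', Dss'', h', hs'', rfl, rfl, h4, h5, h6, hr''⟩ := runs_cons hr'
  obtain ⟨rfl, rfl⟩ := runs_nil hr''
  simp only [List.flatten_cons, List.flatten_nil, List.append_nil] at hn hV
  have hlt : ∀ D ∈ Ds ++ Ds', D < p := by
    intro D hD
    rcases List.mem_append.1 hD with hD | hD
    · exact ChS_lt h2 D hD
    · exact ChS_lt h5 D hD
  refine ⟨Ds, Ds', h, h', w, h1, h2, h3, h4, h5, h6, ?_, ?_, ?_⟩
  · rw [← wts_append, Multiset.nodup_cons]
    refine ⟨?_, wts_nodup hn hlt⟩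
    intro hm
    obtain ⟨D, hD, e⟩ := mem_wts.1 hm
    exact (hV D hD).2 e
  · intro u hu
    rw [← wts_append] at hu
    rcases Multiset.mem_cons.1 hu with rfl | hu
    · exact ⟨hpw, hwV⟩
    · obtain ⟨D, hD, e⟩ := mem_wts.1 hu
      have := hlt D hD
      refine ⟨by omega, ?_⟩
      rw [← e]
      exact (hV D hD).1
  · simpa using hw

theorem star_swap {p : ℕ} {V : Finset ℕ} {C n S n' S' : ℕ} (h : Star p V C [(n, S), (n', S')]) :
    Star p V C [(n', S'), (n, S)] := by
  obtain ⟨Dss, hs, w, hr, hn, hV, hw, hpw, hwV⟩ := h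
  obtain ⟨Ds, Dss', h, hs', rfl, rfl, h1, h2, h3, hr'⟩ := runs_cons hr
  obtain ⟨Ds', Dss'', h', hs'', rfl, rfl, h4, h5, h6, hr''⟩ := runs_cons hr'
  obtain ⟨rfl, rfl⟩ := runs_nil hr''
  refine ⟨[Ds', Ds], [h', h], w, ⟨h4, h5, h6, h1, h2, h3, trivial⟩, ?_, ?_, ?_, hpw, hwV⟩
  · simp only [List.flatten_cons, List.flatten_nil, List.append_nil] at hn ⊢
    exact (List.perm_append_comm).nodup_iff.1 hn
  · intro D hD
    refine hV D ?_
    simp only [List.flatten_cons, List.flatten_nil, List.append_nil, List.mem_append] at hD ⊢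
    exact hD.symm
  · simp only [List.sum_cons, List.sum_nil, List.length_cons, List.length_nil] at hw ⊢
    omega

/-- assembling the solution, both runs open -/
theorem asm_open {p : ℕ} (hp : 1 ≤ p) {V : Finset ℕ} {n₀ r : ℕ} {A : Multiset ℕ} {y : RF}
    (hy : y.width = 1) (hS : Star p V A.sum [(n₀, p), (r, p)]) :
    ∃ W, PS p (zrun n₀ (RF.cons (Multiset.card A) (zrun r y) RF.nil)) p W A y ∧ W.Nodup ∧
      ∀ w ∈ W, p < w ∧ w ∉ V := by
  obtain ⟨Ds, Ds', h, h', w, h1, h2, h3, h4, h5, h6, h7, h8, h9⟩ := star_two hS
  have k1 := PS.openRun hp hy h5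
  rw [h4] at k1
  have k2 := PS.single (A := A) (y := p - h) (by omega) (by omega) k1
  have k3 := PS.upRun h3 h2 k2
  have e : A.sum + (p - h') + (p - h) = w := by omega
  rw [h1, e, Multiset.add_cons, add_zero] at k3
  exact ⟨_, k3, h7, h8⟩

/-- assembling the solution, lower leg included -/
theorem asm_incl {p : ℕ} {V : Finset ℕ} {n₀ r : ℕ} {A X : Multiset ℕ}
    (hS : Star p V A.sum [(n₀, p), (r + 1, X.sum)]) :
    ∃ W, PS p (zrun n₀ (RF.cons (Multiset.card A) (zrun r (bot (Multiset.card X))) RF.nil)) p W
      (A + X) RF.nil ∧ W.Nodup ∧ ∀ w ∈ W, p < w ∧ w ∉ V := by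
  obtain ⟨Ds, Ds', h, h', w, h1, h2, h3, h4, h5, h6, h7, h8, h9⟩ := star_two hS
  have k1 := PS.inclLeg h4 h5
  have k2 := PS.single (A := A) (y := p - h) (by omega) (by omega) k1
  have k3 := PS.upRun h3 h2 k2
  have e : A.sum + (p - h') + (p - h) = w := by omega
  rw [h1, e, Multiset.add_cons] at k3
  exact ⟨_, k3, h7, h8⟩

/-- assembling the solution, lower leg excluded -/
theorem asm_excl (hRE : RE) {p s : ℕ} {V : Finset ℕ} {n₀ r : ℕ} {A X : Multiset ℕ}
    (hn₀ : 1 ≤ n₀) (hr : 1 ≤ r) (hX : 2 * p ≤ X.sum + s + 2) (hA : p ≤ A.sum + s)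
    (hV : V.card + (n₀ + 1 + r + 1) + s ≤ p + 1) :
    ∃ W, PS p (zrun n₀ (RF.cons (Multiset.card A) (zrun r (bot (Multiset.card X))) RF.nil)) p W
      (A + X) RF.nil ∧ W.Nodup ∧ ∀ w ∈ W, p < w ∧ w ∉ V := by
  have hin : ∀ V : Finset ℕ, In p V 0 := by
    intro V y hy
    omega
  obtain ⟨Ds', h', w', h1, h2, h3, h4, h5, h6⟩ := star_one
    (hRE p r (2 * p - X.sum) 0 X.sum V hr (hin V) (by omega) (by omega))
  have hc : (insert w' (wts p Ds').toFinset ∪ V).card ≤ V.card + (r + 1) := by
    refine (Finset.card_union_le _ _).trans ?_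
    have := Finset.card_insert_le w' (wts p Ds').toFinset
    have h7 : (wts p Ds').toFinset.card ≤ r := by
      refine (Multiset.toFinset_card_le _).trans ?_
      rw [card_wts, h1]
    omega
  obtain ⟨Ds, h, w, g1, g2, g3, g4, g5, g6⟩ := star_one
    (hRE p n₀ (p - A.sum) 0 (A.sum + p) (insert w' (wts p Ds').toFinset ∪ V) hn₀ (hin _)
      (by omega) (by omega))
  have k1 := PS.exclLeg (X := X) h3 h2
  rw [h1] at k1
  have k2 := PS.single (A := A) (y := p - h) (by omega) (by omega) k1
  have k3 := PS.upRun g3 g2 k2
  have e : A.sum + p + (p - h) = w := by omega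
  have e' : X.sum + (p - h') = w' := by omega
  rw [g1, e, e', Multiset.add_cons] at k3
  have hwn : (insert w' (wts p Ds').toFinset ∪ V) = (w' ::ₘ wts p Ds').toFinset ∪ V := by
    ext u; simp
  rw [hwn] at g5
  have g7 : w ::ₘ (wts p Ds + w' ::ₘ wts p Ds') = (w ::ₘ wts p Ds) + (w' ::ₘ wts p Ds') := by
    rw [Multiset.cons_add]
  refine ⟨_, k3, ?_, ?_⟩
  · rw [g7, Multiset.nodup_add]
    refine ⟨g4, h4, ?_⟩
    rw [Multiset.disjoint_left]
    intro u hu hu'
    refine (g5 u hu).2 ?_
    rw [Finset.mem_union, Multiset.mem_toFinset]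
    exact Or.inl hu'
  · intro u hu
    rw [g7, Multiset.mem_add] at hu
    rcases hu with hu | hu
    · refine ⟨(g5 u hu).1, fun hv => (g5 u hu).2 ?_⟩
      rw [Finset.mem_union]
      exact Or.inr hv
    · exact h5 u hu

theorem exists_le_card (m : Multiset ℕ) (k : ℕ) (hk : k ≤ Multiset.card m) :
    ∃ t ≤ m, Multiset.card t = k := by
  induction m using Quotient.inductionOn with
  | h l =>
    refine ⟨(l.take k : List ℕ), ?_, ?_⟩
    · exact (List.take_sublist k l).subperm
    · simp only [Multiset.quot_mk_to_coe, Multiset.coe_card] at hk ⊢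
      rw [List.length_take]
      omega

theorem in_zero (p : ℕ) (V : Finset ℕ) : In p V 0 := by
  intro y hy
  omega

theorem tCupLeg (hRE : RE) (h1 : Star1) (hL : StarL) (hLab : LabMain) : TCupLeg := by
  intro p s l n₀ r b R hR hcard hn₀ hl hr hb hlb hsize
  have hp : 1 ≤ p := by omega
  have hRne : R.Nonempty := by
    rw [← Finset.card_pos]; omega
  by_cases hbig : p ≤ 2 * s + 1
  · -- large regime
    obtain ⟨M, hM, hMax⟩ := R.exists_max_image id hRne
    have hMc : R.card ≤ M := by
      have h2 : R ⊆ Finset.Icc 1 M := by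
        intro x hx
        rw [Finset.mem_Icc]
        exact ⟨(Finset.mem_Icc.1 (hR hx)).1, hMax x hx⟩
      have := Finset.card_le_card h2
      simpa using this
    refine ⟨bot b, {M}, Or.inl rfl, by simpa using hM, ?_, ?_, ?_⟩
    · simp only [Finset.card_singleton, bot_size]; omega
    · simp only [Finset.card_singleton, bot_leaves]; omega
    · intro V fill _ hV hf _ _
      simp only [zrun_size, RF.size, bot_size, zrun_leaves, RF.leaves, bot_leaves,
        Finset.singleton_val, Multiset.card_singleton] at hV hf ⊢
      have hAc : Multiset.card ({M} + fill) = l := by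
        rw [Multiset.card_add, Multiset.card_singleton]; omega
      have hAs : ({M} + fill : Multiset ℕ).sum = M + fill.sum := by simp
      have hMp := (Finset.mem_Icc.1 (hR hM)).2
      have hS := hL p (({M} + fill : Multiset ℕ).sum) (p - M) 1 V [n₀, r] (by simp)
        (by simp [hn₀, hr]) (by simp; omega) (by simp; omega) (by simp [hAs]; omega)
      have := asm_open hp (bot_width b) hS
      rw [hAc] at this
      simpa using this
  · have hlab := hLab p s R hR hcard (by omega)
    by_cases hodd : n₀ % 2 = 1 ∧ r % 2 = 1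
    · rcases Nat.lt_or_ge b 2 with hb2 | hb2
      · -- b = 1
        have hb1 : b = 1 := by omega
        subst hb1
        obtain ⟨M, hM, M', hM', hne, hMs, hMs'⟩ := hlab.TT (by omega)
        have hc2 : ({M, M'} : Finset ℕ).card = 2 := Finset.card_pair hne
        refine ⟨RF.nil, {M, M'}, Or.inr rfl, ?_, ?_, ?_, ?_⟩
        · intro x hx
          simp only [Finset.mem_insert, Finset.mem_singleton] at hx
          rcases hx with rfl | rfl <;> assumption
        · rw [hc2]; simp only [RF.size]; omega
        · rw [hc2]; simp only [RF.leaves]; omega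
        · intro V fill _ hV hf _ _
          have hval : ({M, M'} : Finset ℕ).val = {M'} + {M} := by
            rw [Finset.insert_val_of_notMem (by simpa using hne)]
            simp [Multiset.singleton_add, Multiset.cons_swap]
            exact Multiset.cons_swap M M' 0
          rw [hval] at hf ⊢
          simp only [zrun_size, RF.size, bot_size, zrun_leaves, RF.leaves, bot_leaves,
            Multiset.card_singleton, Multiset.card_add] at hV hf ⊢
          have hAc : Multiset.card ({M'} + fill) = l := by
            rw [Multiset.card_add, Multiset.card_singleton]; omega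
          have hMp := (Finset.mem_Icc.1 (hR hM)).2
          have hMp' := (Finset.mem_Icc.1 (hR hM')).2
          have hoc : oddc [n₀] = 1 := by simp [oddc, hodd.1]
          have hS := h1 p s 0 (p - M') (({M'} + fill : Multiset ℕ).sum) V [n₀] (r + 1) M
            (by simp [hn₀]) (by rw [Nat.even_iff]; omega) (by omega) (by omega) (by omega)
            (by rw [hoc]; simp; omega) (in_zero p V) (by rw [hoc]; simp; omega)
            (by simp; omega)
          have hS' := star_swap (n := r + 1) (S := M) (n' := n₀) (S' := p) hS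
          have hX : ({M} : Multiset ℕ).sum = M := by simp
          rw [← hX] at hS'
          have := asm_incl hS'
          rw [hAc, Multiset.card_singleton] at this
          have e : ({M'} + fill + {M} : Multiset ℕ) = {M'} + {M} + fill := by abel
          rw [e] at this
          simpa using this
      · rcases Nat.lt_or_ge b 3 with hb3 | hb3
        · -- b = 2
          have hb1 : b = 2 := by omega
          subst hb1
          obtain ⟨X, hX, hXc, hXs, M, hM, hMX, hMs⟩ := hlab.FT (by omega)
          have hc2 : (insert M X).card = 3 := by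
            rw [Finset.card_insert_of_notMem hMX, hXc]
          refine ⟨RF.nil, insert M X, Or.inr rfl, Finset.insert_subset hM hX, ?_, ?_, ?_⟩
          · rw [hc2]; simp only [RF.size]; omega
          · rw [hc2]; simp only [RF.leaves]; omega
          · intro V fill _ hV hf _ _
            have hval : (insert M X : Finset ℕ).val = {M} + X.val := by
              rw [Finset.insert_val_of_notMem hMX]
              simp [Multiset.singleton_add]
            rw [hval] at hf ⊢
            have hXc' : Multiset.card X.val = 2 := hXc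
            simp only [zrun_size, RF.size, bot_size, zrun_leaves, RF.leaves, bot_leaves,
              Multiset.card_singleton, Multiset.card_add, hXc'] at hV hf ⊢
            have hAc : Multiset.card ({M} + fill) = l := by
              rw [Multiset.card_add, Multiset.card_singleton]; omega
            have hMp := (Finset.mem_Icc.1 (hR hM)).2
            have hoc : oddc [n₀] = 1 := by simp [oddc, hodd.1]
            have hS := h1 p s 0 (p - M) (({M} + fill : Multiset ℕ).sum) V [n₀] (r + 1) p
              (by simp [hn₀]) (by rw [Nat.even_iff]; omega) (by omega) (by omega) (by omega)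
              (by rw [hoc]; simp; omega) (in_zero p V) (by rw [hoc]; simp; omega)
              (by simp; omega)
            have hS' := star_swap (n := r + 1) (S := p) (n' := n₀) (S' := p) hS
            have hX : X.val.sum = p := by rw [← hXs]; exact (Finset.sum_val X)
            rw [← hX] at hS'
            have hS'' : Star p V ({M} + fill : Multiset ℕ).sum [(n₀, p), (r + 1, X.val.sum)] := by
              have := hS'
              rw [hX] at this
              rw [hX]
              exact this
            have := asm_incl hS''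
            rw [hAc, hXc'] at this
            have e : ({M} + fill + X.val : Multiset ℕ) = {M} + X.val + fill := by abel
            rw [e] at this
            simpa using this
        · -- b ≥ 3
          obtain ⟨M, hM, hMs, X, hX, hMX, hXc, hXs⟩ := hlab.TO (by omega)
          have hc2 : (insert M X).card = 4 := by
            rw [Finset.card_insert_of_notMem hMX, hXc]
          refine ⟨RF.nil, insert M X, Or.inr rfl, Finset.insert_subset hM hX, ?_, ?_, ?_⟩
          · rw [hc2]; simp only [RF.size]; omega
          · rw [hc2]; simp only [RF.leaves]; omega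
          · intro V fill _ hV hf _ _
            have hval : (insert M X : Finset ℕ).val = {M} + X.val := by
              rw [Finset.insert_val_of_notMem hMX]
              simp [Multiset.singleton_add]
            rw [hval] at hf ⊢
            have hXc' : Multiset.card X.val = 3 := hXc
            simp only [zrun_size, RF.size, bot_size, zrun_leaves, RF.leaves, bot_leaves,
              Multiset.card_singleton, Multiset.card_add, hXc'] at hV hf ⊢
            obtain ⟨F1, hF1, hF1c⟩ : ∃ F1 ≤ fill, Multiset.card F1 = l - 1 :=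
              exists_le_card fill (l - 1) (by omega)
            obtain ⟨F2, rfl⟩ := Multiset.le_iff_exists_add.1 hF1
            rw [Multiset.card_add] at hf
            have hAc : Multiset.card ({M} + F1) = l := by
              rw [Multiset.card_add, Multiset.card_singleton]; omega
            have hBc : Multiset.card (X.val + F2) = b := by
              rw [Multiset.card_add, hXc']; omega
            have hX : X.val.sum = X.sum id := Finset.sum_val X
            have := asm_excl hRE (p := p) (s := s) (V := V) (n₀ := n₀) (r := r)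
              (A := {M} + F1) (X := X.val + F2) hn₀ hr
              (by rw [Multiset.sum_add, hX]; omega) (by rw [Multiset.sum_add]; simp; omega)
              (by omega)
            rw [hAc, hBc] at this
            have e : ({M} + F1 + (X.val + F2) : Multiset ℕ) = {M} + X.val + (F1 + F2) := by abel
            rw [e] at this
            simpa using this
    · -- not both odd
      obtain ⟨M, hM, hMs⟩ := hlab.T (by omega)
      refine ⟨bot b, {M}, Or.inl rfl, by simpa using hM, ?_, ?_, ?_⟩
      · simp only [Finset.card_singleton, bot_size]; omega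
      · simp only [Finset.card_singleton, bot_leaves]; omega
      · intro V fill _ hV hf _ _
        simp only [zrun_size, RF.size, bot_size, zrun_leaves, RF.leaves, bot_leaves,
          Finset.singleton_val, Multiset.card_singleton] at hV hf ⊢
        have hAc : Multiset.card ({M} + fill) = l := by
          rw [Multiset.card_add, Multiset.card_singleton]; omega
        have hAs : ({M} + fill : Multiset ℕ).sum = M + fill.sum := by simp
        have hMp := (Finset.mem_Icc.1 (hR hM)).2
        have hS : Star p V (({M} + fill : Multiset ℕ).sum) [(n₀, p), (r, p)] := by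
          by_cases he : n₀ % 2 = 1
          · -- r even
            have hoc : oddc [n₀] = 1 := by simp [oddc, he]
            have hS := h1 p s 0 (p - M) (({M} + fill : Multiset ℕ).sum) V [n₀] r p
              (by simp [hn₀]) (by rw [Nat.even_iff]; omega) (by omega) (by omega) (by omega)
              (by rw [hoc]; simp; omega) (in_zero p V) (by rw [hoc]; simp; omega)
              (by simp; omega)
            exact star_swap (n := r) (S := p) (n' := n₀) (S' := p) hS
          · have hoc : oddc [r] ≤ 1 := by
              unfold oddc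
              exact (List.length_filter_le _ _).trans (by simp)
            have hoc' : oddc [r] - 1 = 0 := by omega
            exact h1 p s 0 (p - M) (({M} + fill : Multiset ℕ).sum) V [r] n₀ p
              (by simp [hr]) (by rw [Nat.even_iff]; omega) (by omega) (by omega) (by omega)
              (by omega) (in_zero p V) (by rw [hoc']; simp; omega)
              (by simp; omega)
        have := asm_open hp (bot_width b) hS
        rw [hAc] at this
        simpa using this

end Irr87.H14
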